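import Mathlib

/-!
# Project QR: sparse quasirandom graphs with the wrong number of triangles

Vertices get random types in `{±1}^d`, and edges are chosen independently with the probabilities
`p ∏ i, (1 + η a i b i)`. The normalised count of a graph with the edge set `E` is concentrated at
`Zf E η ^ d`, where `Zf E η` is the partition function of the Ising model: `1` for an edge, `1 + η ^ 4` for
the 4-cycle, `1 + η ^ 3` for the triangle, and `1 + O(|η| ^ 3)` in all cases.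
-/

set_option autoImplicit false

namespace Pool.Agent.N437.QR

open Finset Filter Topology

/-- The sign of a Boolean. -/
def sg (b : Bool) : ℝ := if b then 1 else -1

/-- The product of the two signs of an unordered pair of Booleans. -/
def sg2 : Sym2 Bool → ℝ := Sym2.lift ⟨fun a b => sg a * sg b, fun a b => mul_comm _ _⟩

/-- The kernel `∏ i, (1 + η a i b i)` as a function of an unordered pair of types. -/
noncomputable def Wk (d : ℕ) (η : ℝ) : Sym2 (Fin d → Bool) → ℝ :=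
  Sym2.lift ⟨fun a b => ∏ i, (1 + η * (sg (a i) * sg (b i))),
    fun a b => Finset.prod_congr rfl fun i _ => by rw [mul_comm (sg (a i))]⟩

/-- The partition function of the Ising model on the graph with the edge set `E`. -/
noncomputable def Zf {V : Type} [Fintype V] [DecidableEq V] (E : Finset (Sym2 V)) (η : ℝ) : ℝ :=
  ((2 : ℝ) ^ Fintype.card V)⁻¹ * ∑ y : V → Bool, ∏ e ∈ E, (1 + η * sg2 (e.map y))

/-- The probability of the set `S` if every `e` is chosen with probability `q e`, independently. -/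
noncomputable def Wt {α : Type} [Fintype α] [DecidableEq α] (q : α → ℝ) (S : Finset α) : ℝ :=
  (∏ e ∈ S, q e) * ∏ e ∈ Sᶜ, (1 - q e)

/-- The average of `h` over all functions from `α` to `Ω`. -/
noncomputable def Av {α Ω : Type} [Fintype α] [DecidableEq α] [Fintype Ω] (h : (α → Ω) → ℝ) : ℝ :=
  (Fintype.card (α → Ω) : ℝ)⁻¹ * ∑ x : α → Ω, h x

/-- The number of the injective maps `f : V → Fin n` which map the pairs in `E` to pairs in `S`. -/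
noncomputable def emb {V : Type} [Fintype V] [DecidableEq V] (E : Finset (Sym2 V)) {n : ℕ}
    (S : Finset (Sym2 (Fin n))) : ℕ :=
  Set.ncard {f : V → Fin n | Function.Injective f ∧ ∀ e ∈ E, e.map f ∈ S}

/-- The probability of the pair `e` if the vertices have the types `x`. -/
noncomputable def qx {n : ℕ} (d : ℕ) (η p : ℝ) (x : Fin n → (Fin d → Bool)) (e : Sym2 (Fin n)) : ℝ :=
  p * Wk d η (e.map x)

/-- The expectation of `Φ S` for the random graph `S`. -/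
noncomputable def Ex {n : ℕ} (d : ℕ) (η p : ℝ) (Φ : Finset (Sym2 (Fin n)) → ℝ) : ℝ :=
  Av fun x : Fin n → (Fin d → Bool) => ∑ S : Finset (Sym2 (Fin n)), Wt (qx d η p x) S * Φ S

/-! ## Leaves -/

/-- WT -/
def S_WT : Prop :=
  ∀ {α : Type} [Fintype α] [DecidableEq α] (q : α → ℝ),
    (∑ S : Finset α, Wt q S = 1) ∧
    (∀ T : Finset α, ∑ S : Finset α, (if T ⊆ S then Wt q S else 0) = ∏ e ∈ T, q e) ∧
    ((∀ e, 0 ≤ q e ∧ q e ≤ 1) → ∀ S : Finset α, 0 ≤ Wt q S)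

/-- AVG -/
def S_AVG : Prop :=
  ∀ {α Ω : Type} [Fintype α] [DecidableEq α] [Fintype Ω] [Nonempty Ω]
    {V : Type} [Fintype V] [DecidableEq V],
    (∀ (f : V → α) (h : (V → Ω) → ℝ), Function.Injective f →
      Av (fun x : α → Ω => h (x ∘ f)) = Av h) ∧
    (∀ (f g : V → α) (h k : (V → Ω) → ℝ), Function.Injective f → Function.Injective g →
      (∀ u v, f u ≠ g v) → Av (fun x : α → Ω => h (x ∘ f) * k (x ∘ g)) = Av h * Av k)

/-- TEN -/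
def S_TEN : Prop :=
  ∀ {V : Type} [Fintype V] [DecidableEq V] (E : Finset (Sym2 V)) (d : ℕ) (η : ℝ),
    Av (fun y : V → (Fin d → Bool) => ∏ e ∈ E, Wk d η (e.map y)) = Zf E η ^ d

/-- ZB -/
def S_ZB : Prop :=
  ∀ {V : Type} [Fintype V] [DecidableEq V] (E : Finset (Sym2 V)) (η : ℝ), (∀ e ∈ E, ¬ e.IsDiag) →
    |η| ≤ 1 → |Zf E η - 1| ≤ 2 ^ E.card * |η| ^ 3

/-- ZEX: the values for an edge, the 4-cycle and the triangle -/
def S_ZEX : Prop :=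
  (∀ (E : Finset (Sym2 (Fin 2))) (η : ℝ), (∀ e, e ∈ E ↔ e ∈ (⊤ : SimpleGraph (Fin 2)).edgeSet) →
    E.card = 1 ∧ Zf E η = 1) ∧
  (∀ (E : Finset (Sym2 (Fin 4))) (η : ℝ), (∀ e, e ∈ E ↔ e ∈ (SimpleGraph.cycleGraph 4).edgeSet) →
    E.card = 4 ∧ Zf E η = 1 + η ^ 4) ∧
  (∀ (E : Finset (Sym2 (Fin 3))) (η : ℝ), (∀ e, e ∈ E ↔ e ∈ (SimpleGraph.cycleGraph 3).edgeSet) →
    E.card = 3 ∧ Zf E η = 1 + η ^ 3)

/-- QR1: the probabilities are in `[0,1]`, and `0 ≤ Zf ^ d p ^ |E| ≤ 1` -/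
def S_QR1 : Prop :=
  ∀ {n : ℕ} (d : ℕ) (η p : ℝ), |η| ≤ 1 → 0 ≤ p → p * (1 + |η|) ^ d ≤ 1 →
    ∀ (x : Fin n → (Fin d → Bool)) (e : Sym2 (Fin n)), 0 ≤ qx d η p x e ∧ qx d η p x e ≤ 1

/-- VAR -/
def S_VAR : Prop :=
  ∀ {V : Type} [Fintype V] [DecidableEq V] (E : Finset (Sym2 V)) (n d : ℕ) (η p : ℝ),
    |η| ≤ 1 → 0 ≤ p → p * (1 + |η|) ^ d ≤ 1 →
    Ex d η p (fun S : Finset (Sym2 (Fin n)) =>
      ((emb E S : ℝ) - n.descFactorial (Fintype.card V) * (p ^ E.card * Zf E η ^ d)) ^ 2) ≤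
    (Fintype.card V : ℝ) ^ 2 * n.descFactorial (Fintype.card V) * (n : ℝ) ^ (Fintype.card V - 1)

/-- FAM: finitely many graphs at once -/
def S_FAM : Prop :=
  ∀ (V : ℕ → Type) [∀ j, Fintype (V j)] [∀ j, DecidableEq (V j)] (E : ∀ j, Finset (Sym2 (V j)))
    (n d m : ℕ) (η p δ : ℝ), |η| ≤ 1 → 0 < p → p * (1 + |η|) ^ d ≤ 1 → 0 < δ →
    (∀ j < m, 2 * Fintype.card (V j) ≤ n ∧ (m : ℝ) * ((Fintype.card (V j) : ℝ) ^ 2 *
      2 ^ Fintype.card (V j) * (p⁻¹ ^ (2 * (E j).card) / n)) < δ ^ 2) →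
    ∃ S : Finset (Sym2 (Fin n)), ∀ j < m,
      |(emb (E j) S : ℝ) / ((n.descFactorial (Fintype.card (V j)) : ℝ) * p ^ (E j).card) -
        Zf (E j) η ^ d| < δ

/-- DIAG: the diagonal argument -/
def S_DIAG : Prop :=
  ∀ (A : ℕ → Type) (F : ∀ (j n : ℕ), A n → ℝ), (∀ n, Nonempty (A n)) →
    (∀ (m : ℕ) (δ : ℝ), 0 < δ → ∀ᶠ n in atTop, ∃ S : A n, ∀ j < m, |F j n S| < δ) →
    ∃ S : ∀ n, A n, ∀ j, Tendsto (fun n => F j n (S n)) atTop (𝓝 0)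

/-- CORE -/
def S_CORE : Prop :=
  ∀ (V : ℕ → Type) [∀ j, Fintype (V j)] [∀ j, DecidableEq (V j)] (E : ∀ j, Finset (Sym2 (V j)))
    (d : ℕ → ℕ) (η p : ℕ → ℝ), (∀ n, |η n| ≤ 1) → (∀ n, 0 < p n) →
    (∀ n, p n * (1 + |η n|) ^ d n ≤ 1) →
    (∀ K : ℕ, Tendsto (fun n : ℕ => (p n)⁻¹ ^ K / n) atTop (𝓝 0)) →
    ∃ S : ∀ n : ℕ, Finset (Sym2 (Fin n)), ∀ j, Tendsto (fun n : ℕ =>
      (emb (E j) (S n) : ℝ) / ((n.descFactorial (Fintype.card (V j)) : ℝ) * p n ^ (E j).card) -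
        Zf (E j) (η n) ^ d n) atTop (𝓝 0)

/-- PAR: the choice of `p`, `η = -1/m`, `d = m ^ 3` -/
def S_PAR : Prop :=
  ∃ (m : ℕ → ℕ) (p : ℕ → ℝ), (∀ n, 1 ≤ m n) ∧ Tendsto m atTop atTop ∧ (∀ n, 0 < p n ∧ p n ≤ 1) ∧
    (∀ n, p n * (1 + |-(1 / (m n : ℝ))|) ^ (m n ^ 3) ≤ 1) ∧
    (∀ K : ℕ, Tendsto (fun n : ℕ => (p n)⁻¹ ^ K / n) atTop (𝓝 0)) ∧
    Tendsto p atTop (𝓝 0)

/-- LIM: the limits of the partition functions -/
def S_LIM : Prop :=
  ∀ m : ℕ → ℕ, (∀ n, 1 ≤ m n) → Tendsto m atTop atTop →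
    Tendsto (fun n => (1 + (-(1 / (m n : ℝ))) ^ 3) ^ (m n ^ 3)) atTop (𝓝 (Real.exp (-1))) ∧
    Tendsto (fun n => (1 + (-(1 / (m n : ℝ))) ^ 4) ^ (m n ^ 3)) atTop (𝓝 1) ∧
    ∀ {V : Type} [Fintype V] [DecidableEq V] (E : Finset (Sym2 V)), (∀ e ∈ E, ¬ e.IsDiag) →
      ∃ C : ℝ, ∀ n, |Zf E (-(1 / (m n : ℝ))) ^ (m n ^ 3)| ≤ C

/-- GR: passage to simple graphs -/
def S_GR : Prop :=
  ∀ {V : Type} [Fintype V] [DecidableEq V] (F : SimpleGraph V) (E : Finset (Sym2 V)),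
    (∀ e, e ∈ E ↔ e ∈ F.edgeSet) → (∀ e ∈ E, ¬ e.IsDiag) ∧
      ∀ {n : ℕ} (S : Finset (Sym2 (Fin n))), Set.ncard {f : V → Fin n | Function.Injective f ∧
        ∀ i j, F.Adj i j → (SimpleGraph.fromEdgeSet (S : Set (Sym2 (Fin n)))).Adj (f i) (f j)} =
      emb E S

end Pool.Agent.N437.QR
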