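import Pool.Agent.N437.QR.GR

set_option autoImplicit false

namespace Pool.Agent.N437.QR

open Filter Topology

/-- The edges of a graph as a Finset. -/
noncomputable def Ee {V : Type} [Fintype V] [DecidableEq V] (F : SimpleGraph V) : Finset (Sym2 V) :=
  F.edgeSet.toFinite.toFinset

lemma mem_Ee {V : Type} [Fintype V] [DecidableEq V] (F : SimpleGraph V) (e : Sym2 V) :
    e ∈ Ee F ↔ e ∈ F.edgeSet := by
  unfold Ee
  exact Set.Finite.mem_toFinset _

/-- The graph with the edges in `S`. -/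
def Gr {n : ℕ} (S : Finset (Sym2 (Fin n))) : SimpleGraph (Fin n) :=
  SimpleGraph.fromEdgeSet (S : Set (Sym2 (Fin n)))

/-- the copies of `F` in `G` -/
def cp {V : Type} [Fintype V] (F : SimpleGraph V) {n : ℕ} (G : SimpleGraph (Fin n)) : Set (V → Fin n) :=
  {f : V → Fin n | Function.Injective f ∧ ∀ i j, F.Adj i j → G.Adj (f i) (f j)}

lemma card_Ee_bip (s t : ℕ) : (Ee (completeBipartiteGraph (Fin s) (Fin t))).card = s * t := by
  have h := SimpleGraph.encard_edgeSet_completeBipartiteGraph (W₁ := Fin s) (W₂ := Fin t)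
  have h2 : (Ee (completeBipartiteGraph (Fin s) (Fin t)) : Set (Sym2 (Fin s ⊕ Fin t))) =
      (completeBipartiteGraph (Fin s) (Fin t)).edgeSet := by
    ext e
    simpa using mem_Ee _ e
  rw [← h2, Set.encard_coe_eq_coe_finsetCard] at h
  simp only [ENat.card_eq_coe_fintype_card, Fintype.card_fin] at h
  exact_mod_cast h

/-- the core theorem for one sequence of simple graphs -/
lemma core_graphs (hC : S_CORE) (hG : S_GR) (V : ℕ → Type) [∀ j, Fintype (V j)]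
    [∀ j, DecidableEq (V j)] (F : ∀ j, SimpleGraph (V j)) (m : ℕ → ℕ) (p : ℕ → ℝ)
    (hm : ∀ n, 1 ≤ m n) (hp : ∀ n, 0 < p n ∧ p n ≤ 1)
    (h1 : ∀ n, p n * (1 + |-(1 / (m n : ℝ))|) ^ (m n ^ 3) ≤ 1)
    (h2 : ∀ K : ℕ, Tendsto (fun n : ℕ => (p n)⁻¹ ^ K / n) atTop (𝓝 0)) :
    ∃ G : ∀ n : ℕ, SimpleGraph (Fin n), ∀ j, Tendsto (fun n : ℕ =>
      ((cp (F j) (G n)).ncard : ℝ) /
        ((n.descFactorial (Fintype.card (V j)) : ℝ) * p n ^ (Ee (F j)).card) -
        Zf (Ee (F j)) (-(1 / (m n : ℝ))) ^ (m n ^ 3)) atTop (𝓝 0) := by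
  obtain ⟨S, hS⟩ := hC V (fun j => Ee (F j)) (fun n => m n ^ 3) (fun n => -(1 / (m n : ℝ))) p
    (fun n => by
      have : (1 : ℝ) ≤ m n := by exact_mod_cast hm n
      rw [abs_neg, abs_of_nonneg (by positivity), div_le_one (by linarith)]
      exact this) (fun n => (hp n).1) h1 h2
  refine ⟨fun n => Gr (S n), fun j => ?_⟩
  refine (hS j).congr fun n => ?_
  have := (hG (F j) (Ee (F j)) (mem_Ee (F j))).2 (S n)
  unfold cp Gr
  rw [this]

/-- vertices -/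
def Vt (s : ℕ) : ℕ → Type
  | 0 => Fin 2
  | 1 => Fin 4
  | 2 => Fin 3
  | (t + 3) => Fin s ⊕ Fin t

instance fVt (s : ℕ) : ∀ j, Fintype (Vt s j)
  | 0 => inferInstanceAs (Fintype (Fin 2))
  | 1 => inferInstanceAs (Fintype (Fin 4))
  | 2 => inferInstanceAs (Fintype (Fin 3))
  | (t + 3) => inferInstanceAs (Fintype (Fin s ⊕ Fin t))

instance dVt (s : ℕ) : ∀ j, DecidableEq (Vt s j)
  | 0 => inferInstanceAs (DecidableEq (Fin 2))
  | 1 => inferInstanceAs (DecidableEq (Fin 4))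
  | 2 => inferInstanceAs (DecidableEq (Fin 3))
  | (t + 3) => inferInstanceAs (DecidableEq (Fin s ⊕ Fin t))

/-- graphs -/
def Ft (s : ℕ) : ∀ j, SimpleGraph (Vt s j)
  | 0 => (⊤ : SimpleGraph (Fin 2))
  | 1 => SimpleGraph.cycleGraph 4
  | 2 => SimpleGraph.cycleGraph 3
  | (t + 3) => completeBipartiteGraph (Fin s) (Fin t)

/-- `p n` is larger than `(log n) ^ a n ^ (-1/s)` -/
lemma p_large (p : ℕ → ℝ) (hp : ∀ n, 0 < p n ∧ p n ≤ 1)
    (h2 : ∀ K : ℕ, Tendsto (fun n : ℕ => (p n)⁻¹ ^ K / n) atTop (𝓝 0)) (s : ℕ) (hs : 2 ≤ s)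
    (a : ℝ) (ha : 0 < a) :
    Tendsto (fun n : ℕ => p n / ((Real.log n) ^ a * (n : ℝ) ^ (-(1 / (s : ℝ))))) atTop atTop := by
  -- (p n)⁻¹ ^ (2 s) ≤ n, so p n ≥ n ^ (-1/(2s))
  have hs0 : (0 : ℝ) < s := by
    have : (2 : ℝ) ≤ s := by exact_mod_cast hs
    linarith
  have hev : ∀ᶠ n : ℕ in atTop, (n : ℝ) ^ (-(1 / (2 * (s : ℝ)))) ≤ p n := by
    have h := (h2 (2 * s)).eventually (gt_mem_nhds (show (0 : ℝ) < 1 by norm_num))
    filter_upwards [h, eventually_ge_atTop 1] with n hn hn1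
    have hn0 : (0 : ℝ) < n := by exact_mod_cast hn1
    rw [div_lt_one hn0] at hn
    have hpn := (hp n).1
    have h3 : ((p n)⁻¹ ^ (2 * s)) ^ (1 / (2 * (s : ℝ))) ≤ (n : ℝ) ^ (1 / (2 * (s : ℝ))) :=
      Real.rpow_le_rpow (by positivity) hn.le (by positivity)
    rw [← Real.rpow_natCast, ← Real.rpow_mul (by positivity)] at h3
    have h4 : ((2 * s : ℕ) : ℝ) * (1 / (2 * (s : ℝ))) = 1 := by
      push_cast
      field_simp
    rw [h4, Real.rpow_one] at h3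
    rw [Real.rpow_neg hn0.le]
    exact inv_le_of_inv_le₀ hpn h3
  -- (log n)^a / n^(1/(2s)) → 0
  have hlog : Tendsto (fun n : ℕ => (Real.log n) ^ a / (n : ℝ) ^ (1 / (2 * (s : ℝ)))) atTop (𝓝 0) := by
    have h := (isLittleO_log_rpow_rpow_atTop a (show (0 : ℝ) < 1 / (2 * (s : ℝ)) by positivity))
    exact (h.tendsto_div_nhds_zero).comp tendsto_natCast_atTop_atTop
  have hinv : Tendsto (fun n : ℕ => ((Real.log n) ^ a / (n : ℝ) ^ (1 / (2 * (s : ℝ))))⁻¹)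
      atTop atTop := by
    refine Tendsto.inv_tendsto_nhdsGT_zero ?_
    rw [tendsto_nhdsWithin_iff]
    refine ⟨hlog, ?_⟩
    filter_upwards [eventually_ge_atTop 3] with n hn
    have hn0 : (3 : ℝ) ≤ n := by exact_mod_cast hn
    have hl : 0 < Real.log n := Real.log_pos (by linarith)
    have : (0 : ℝ) < n := by linarith
    simp only [Set.mem_Ioi]
    positivity
  refine tendsto_atTop_mono' _ ?_ hinv
  filter_upwards [hev, eventually_ge_atTop 3] with n hn hn3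
  have hn0 : (3 : ℝ) ≤ n := by exact_mod_cast hn3
  have hl : 0 < Real.log n := Real.log_pos (by linarith)
  have hnp : (0 : ℝ) < n := by linarith
  have hL : 0 < (Real.log n) ^ a := by positivity
  rw [inv_div, le_div_iff₀ (by positivity)]
  have e1 : (n : ℝ) ^ (1 / (2 * (s : ℝ))) * (n : ℝ) ^ (-(1 / (s : ℝ))) =
      (n : ℝ) ^ (-(1 / (2 * (s : ℝ)))) := by
    rw [← Real.rpow_add hnp]
    congr 1
    field_simp
    ring
  calc (n : ℝ) ^ (1 / (2 * (s : ℝ))) / (Real.log n) ^ a *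
        ((Real.log n) ^ a * (n : ℝ) ^ (-(1 / (s : ℝ))))
      = (n : ℝ) ^ (1 / (2 * (s : ℝ))) * (n : ℝ) ^ (-(1 / (s : ℝ))) := by
        field_simp
    _ = (n : ℝ) ^ (-(1 / (2 * (s : ℝ)))) := e1
    _ ≤ p n := hn

/-- a sequence which is eventually bounded is bounded -/
lemma bdd_of_tendsto (u v : ℕ → ℝ) (h : Tendsto (fun n => u n - v n) atTop (𝓝 0))
    (hv : ∃ C : ℝ, ∀ n, |v n| ≤ C) : ∃ C : ℝ, ∀ n, u n ≤ C := by
  obtain ⟨C, hC⟩ := hv
  obtain ⟨B, hB⟩ := h.bddAbove_range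
  refine ⟨B + C, fun n => ?_⟩
  have h1 : u n - v n ≤ B := hB ⟨n, rfl⟩
  have h2 := (abs_le.1 (hC n)).2
  linarith

theorem fin1 (hC : S_CORE) (hZ : S_ZEX) (hP : S_PAR) (hL : S_LIM) (hG : S_GR) :
    ¬ (∃ s : ℕ, 2 ≤ s ∧ ∃ a : ℝ, 0 < a ∧
      ∀ p : ℕ → ℝ, (∀ n, 0 < p n ∧ p n ≤ 1) →
        Tendsto (fun n : ℕ => p n / ((Real.log n) ^ a * (n : ℝ) ^ (-(1 / (s : ℝ))))) atTop atTop →
        ∀ G : ∀ n : ℕ, SimpleGraph (Fin n),
          Tendsto (fun n : ℕ =>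
            (Set.ncard {f : Fin 2 → Fin n | Function.Injective f ∧
                ∀ i j, (⊤ : SimpleGraph (Fin 2)).Adj i j → (G n).Adj (f i) (f j)} : ℝ) /
              ((n.descFactorial 2 : ℝ) * p n ^ 1)) atTop (𝓝 1) →
          Tendsto (fun n : ℕ =>
            (Set.ncard {f : Fin 4 → Fin n | Function.Injective f ∧
                ∀ i j, (SimpleGraph.cycleGraph 4).Adj i j → (G n).Adj (f i) (f j)} : ℝ) /
              ((n.descFactorial 4 : ℝ) * p n ^ 4)) atTop (𝓝 1) →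
          (∀ t : ℕ, 1 ≤ t → ∃ C : ℝ, ∀ n : ℕ,
            (Set.ncard {f : Fin s ⊕ Fin t → Fin n | Function.Injective f ∧
                ∀ i j, (completeBipartiteGraph (Fin s) (Fin t)).Adj i j → (G n).Adj (f i) (f j)} : ℝ) /
              ((n.descFactorial (s + t) : ℝ) * p n ^ (s * t)) ≤ C) →
          Tendsto (fun n : ℕ =>
            (Set.ncard {f : Fin 3 → Fin n | Function.Injective f ∧
                ∀ i j, (SimpleGraph.cycleGraph 3).Adj i j → (G n).Adj (f i) (f j)} : ℝ) /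
              ((n.descFactorial 3 : ℝ) * p n ^ 3)) atTop (𝓝 1)) := by
  rintro ⟨s, hs, a, ha, H⟩
  obtain ⟨m, p, hm, hmt, hp, h1, h2, -⟩ := hP
  obtain ⟨hl1, hl2, hl3⟩ := hL m hm hmt
  obtain ⟨hZ1, hZ2, hZ3⟩ := hZ
  obtain ⟨G, hGG⟩ := core_graphs hC hG (Vt s) (Ft s) m p hm hp h1 h2
  -- edge
  have k0 : Tendsto (fun n : ℕ =>
      (Set.ncard {f : Fin 2 → Fin n | Function.Injective f ∧
        ∀ i j, (⊤ : SimpleGraph (Fin 2)).Adj i j → (G n).Adj (f i) (f j)} : ℝ) /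
          ((n.descFactorial 2 : ℝ) * p n ^ 1)) atTop (𝓝 1) := by
    have h : Tendsto (fun n : ℕ =>
      ((cp (⊤ : SimpleGraph (Fin 2)) (G n)).ncard : ℝ) /
        ((n.descFactorial (Fintype.card (Fin 2)) : ℝ) *
          p n ^ (Ee (⊤ : SimpleGraph (Fin 2))).card) -
        Zf (Ee (⊤ : SimpleGraph (Fin 2))) (-(1 / (m n : ℝ))) ^ (m n ^ 3)) atTop (𝓝 0) := hGG 0
    simp only [(hZ1 (Ee ⊤) _ (mem_Ee _)).2, (hZ1 (Ee ⊤) 0 (mem_Ee _)).1, Fintype.card_fin,
      one_pow] at h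
    have h' := h.add_const 1
    simp only [sub_add_cancel, zero_add] at h'
    exact h'
  have k1 : Tendsto (fun n : ℕ =>
      (Set.ncard {f : Fin 4 → Fin n | Function.Injective f ∧
        ∀ i j, (SimpleGraph.cycleGraph 4).Adj i j → (G n).Adj (f i) (f j)} : ℝ) /
          ((n.descFactorial 4 : ℝ) * p n ^ 4)) atTop (𝓝 1) := by
    have h : Tendsto (fun n : ℕ =>
      ((cp (SimpleGraph.cycleGraph 4) (G n)).ncard : ℝ) /
        ((n.descFactorial (Fintype.card (Fin 4)) : ℝ) *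
          p n ^ (Ee (SimpleGraph.cycleGraph 4)).card) -
        Zf (Ee (SimpleGraph.cycleGraph 4)) (-(1 / (m n : ℝ))) ^ (m n ^ 3)) atTop (𝓝 0) := hGG 1
    simp only [(hZ2 (Ee (SimpleGraph.cycleGraph 4)) _ (mem_Ee _)).2,
      (hZ2 (Ee (SimpleGraph.cycleGraph 4)) 0 (mem_Ee _)).1, Fintype.card_fin] at h
    have h' := h.add hl2
    simp only [sub_add_cancel, zero_add] at h'
    exact h'
  have k2 : Tendsto (fun n : ℕ =>
      (Set.ncard {f : Fin 3 → Fin n | Function.Injective f ∧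
        ∀ i j, (SimpleGraph.cycleGraph 3).Adj i j → (G n).Adj (f i) (f j)} : ℝ) /
          ((n.descFactorial 3 : ℝ) * p n ^ 3)) atTop (𝓝 (Real.exp (-1))) := by
    have h : Tendsto (fun n : ℕ =>
      ((cp (SimpleGraph.cycleGraph 3) (G n)).ncard : ℝ) /
        ((n.descFactorial (Fintype.card (Fin 3)) : ℝ) *
          p n ^ (Ee (SimpleGraph.cycleGraph 3)).card) -
        Zf (Ee (SimpleGraph.cycleGraph 3)) (-(1 / (m n : ℝ))) ^ (m n ^ 3)) atTop (𝓝 0) := hGG 2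
    simp only [(hZ3 (Ee (SimpleGraph.cycleGraph 3)) _ (mem_Ee _)).2,
      (hZ3 (Ee (SimpleGraph.cycleGraph 3)) 0 (mem_Ee _)).1, Fintype.card_fin] at h
    have h' := h.add hl1
    simp only [sub_add_cancel, zero_add] at h'
    exact h'
  have k3 : ∀ t : ℕ, 1 ≤ t → ∃ C : ℝ, ∀ n : ℕ,
            (Set.ncard {f : Fin s ⊕ Fin t → Fin n | Function.Injective f ∧
                ∀ i j, (completeBipartiteGraph (Fin s) (Fin t)).Adj i j → (G n).Adj (f i) (f j)} : ℝ) /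
              ((n.descFactorial (s + t) : ℝ) * p n ^ (s * t)) ≤ C := by
    intro t ht
    have h : Tendsto (fun n : ℕ =>
      ((cp (completeBipartiteGraph (Fin s) (Fin t)) (G n)).ncard : ℝ) /
        ((n.descFactorial (Fintype.card (Fin s ⊕ Fin t)) : ℝ) *
          p n ^ (Ee (completeBipartiteGraph (Fin s) (Fin t))).card) -
        Zf (Ee (completeBipartiteGraph (Fin s) (Fin t))) (-(1 / (m n : ℝ))) ^ (m n ^ 3))
          atTop (𝓝 0) := hGG (t + 3)
    simp only [card_Ee_bip, Fintype.card_sum, Fintype.card_fin] at h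
    exact bdd_of_tendsto _ _ h (hl3 _ (hG _ _ (mem_Ee _)).1)
  have k4 := H p hp (p_large p hp h2 s hs a ha) G k0 k1 k3
  have h5 := tendsto_nhds_unique k2 k4
  have h6 : Real.exp (-1) < 1 := by
    rw [Real.exp_lt_one_iff]
    norm_num
  linarith

end Pool.Agent.N437.QR
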