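import Pool.Agent.N437.QR.Fin1

set_option autoImplicit false

namespace Pool.Agent.N437.QR

open Filter Topology

lemma card_cp_edge {n : ℕ} (G : SimpleGraph (Fin n)) :
    (cp (⊤ : SimpleGraph (Fin 2)) G).ncard = 2 * G.edgeSet.ncard := by
  classical
  have h1 : (cp (⊤ : SimpleGraph (Fin 2)) G).ncard = Fintype.card G.Dart := by
    rw [← Nat.card_coe_set_eq, ← Nat.card_eq_fintype_card]
    refine Nat.card_congr
      { toFun := fun f => ⟨(f.1 0, f.1 1), f.2.2 0 1 (by simp)⟩
        invFun := fun d => ⟨![d.fst, d.snd], ?_, ?_⟩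
        left_inv := ?_
        right_inv := ?_ }
    · intro i j hij
      have hne : d.fst ≠ d.snd := d.adj.ne
      fin_cases i <;> fin_cases j
      · rfl
      · exact absurd hij hne
      · exact absurd hij.symm hne
      · rfl
    · intro i j hij
      have ha : G.Adj d.fst d.snd := d.adj
      fin_cases i <;> fin_cases j
      · exact absurd rfl hij.ne
      · exact ha
      · exact ha.symm
      · exact absurd rfl hij.ne
    · rintro ⟨f, hf⟩
      apply Subtype.ext
      funext i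
      fin_cases i <;> rfl
    · rintro ⟨⟨a, b⟩, h⟩
      rfl
  rw [h1, SimpleGraph.dart_card_eq_twice_card_edges]
  congr 1
  rw [← Set.ncard_coe_finset]
  congr 1
  ext e
  simp

/-- the graph with at least one edge -/
lemma fin2 (hC : S_CORE) (hZ : S_ZEX) (hP : S_PAR) (hL : S_LIM) (hG : S_GR) :
    ∃ (p : ℕ → ℝ) (G : ∀ n : ℕ, SimpleGraph (Fin n)), (∀ n, 0 < p n ∧ p n ≤ 1) ∧
      Tendsto (fun n : ℕ => Real.log (1 / p n) / Real.log n) atTop (𝓝 0) ∧
      (∀ n, ((G n).edgeSet.ncard : ℝ) = p n * (n.choose 2 : ℝ)) ∧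
      Tendsto (fun n : ℕ => ((cp (SimpleGraph.cycleGraph 4) (G n)).ncard : ℝ) /
        ((n.descFactorial 4 : ℝ) * p n ^ 4)) atTop (𝓝 1) ∧
      (∀ (k : ℕ) (F : SimpleGraph (Fin k)), ∃ C : ℝ, ∀ n : ℕ,
        ((cp F (G n)).ncard : ℝ) / ((n.descFactorial k : ℝ) * p n ^ F.edgeSet.ncard) ≤ C) ∧
      Tendsto (fun n : ℕ => ((cp (SimpleGraph.cycleGraph 3) (G n)).ncard : ℝ) /
        ((n.descFactorial 3 : ℝ) * p n ^ 3)) atTop (𝓝 (Real.exp (-1))) := by
  classical
  obtain ⟨m, p₀, hm, hmt, hp, h1, h2, -⟩ := hP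
  obtain ⟨hl1, hl2, hl3⟩ := hL m hm hmt
  obtain ⟨hZ1, hZ2, hZ3⟩ := hZ
  obtain ⟨φ, hφ⟩ := exists_surjective_nat (Σ k : ℕ, SimpleGraph (Fin k))
  obtain ⟨G₀, hGG⟩ := core_graphs hC hG (fun j => Fin (φ j).1) (fun j => (φ j).2) m p₀ hm hp h1 h2
  -- for every graph
  have all : ∀ (k : ℕ) (F : SimpleGraph (Fin k)), Tendsto (fun n : ℕ =>
      ((cp F (G₀ n)).ncard : ℝ) / ((n.descFactorial k : ℝ) * p₀ n ^ (Ee F).card) -
        Zf (Ee F) (-(1 / (m n : ℝ))) ^ (m n ^ 3)) atTop (𝓝 0) := by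
    intro k F
    obtain ⟨j, hj⟩ := hφ ⟨k, F⟩
    have h := hGG j
    rw [hj] at h
    simpa only [Fintype.card_fin] using h
  have hEe : ∀ (k : ℕ) (F : SimpleGraph (Fin k)), (Ee F).card = F.edgeSet.ncard := by
    intro k F
    rw [← Set.ncard_coe_finset]
    congr 1
    ext e
    simpa using mem_Ee F e
  -- the ratio
  set r : ℕ → ℝ := fun n => ((cp (⊤ : SimpleGraph (Fin 2)) (G₀ n)).ncard : ℝ) /
        ((n.descFactorial 2 : ℝ) * p₀ n) with hr
  have k0 : Tendsto r atTop (𝓝 1) := by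
    have h := all 2 ⊤
    simp only [(hZ1 (Ee ⊤) _ (mem_Ee _)).2, (hZ1 (Ee ⊤) 0 (mem_Ee _)).1, one_pow, pow_one] at h
    have h' := h.add_const 1
    simp only [sub_add_cancel, zero_add] at h'
    exact h'
  have k1 : Tendsto (fun n : ℕ => ((cp (SimpleGraph.cycleGraph 4) (G₀ n)).ncard : ℝ) /
        ((n.descFactorial 4 : ℝ) * p₀ n ^ 4)) atTop (𝓝 1) := by
    have h := all 4 (SimpleGraph.cycleGraph 4)
    simp only [(hZ2 (Ee (SimpleGraph.cycleGraph 4)) _ (mem_Ee _)).2,
      (hZ2 (Ee (SimpleGraph.cycleGraph 4)) 0 (mem_Ee _)).1] at h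
    have h' := h.add hl2
    simp only [sub_add_cancel, zero_add] at h'
    exact h'
  have k2 : Tendsto (fun n : ℕ => ((cp (SimpleGraph.cycleGraph 3) (G₀ n)).ncard : ℝ) /
        ((n.descFactorial 3 : ℝ) * p₀ n ^ 3)) atTop (𝓝 (Real.exp (-1))) := by
    have h := all 3 (SimpleGraph.cycleGraph 3)
    simp only [(hZ3 (Ee (SimpleGraph.cycleGraph 3)) _ (mem_Ee _)).2,
      (hZ3 (Ee (SimpleGraph.cycleGraph 3)) 0 (mem_Ee _)).1] at h
    have h' := h.add hl1
    simp only [sub_add_cancel, zero_add] at h'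
    exact h'
  -- the new density and graph
  set G : ∀ n : ℕ, SimpleGraph (Fin n) := fun n =>
    if (G₀ n).edgeSet.ncard = 0 then ⊤ else G₀ n with hGdef
  set p : ℕ → ℝ := fun n => if n ≤ 1 then 1 else ((G n).edgeSet.ncard : ℝ) / (n.choose 2 : ℝ)
    with hpdef
  have hed : ∀ n, (G n).edgeSet.ncard ≤ n.choose 2 := by
    intro n
    have h := SimpleGraph.card_edgeFinset_le_card_choose_two (G := G n)
    rw [Fintype.card_fin] at h
    refine le_trans (le_of_eq ?_) h
    rw [← Set.ncard_coe_finset]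
    congr 1
    ext e
    simp
  have hpos : ∀ n, 2 ≤ n → 0 < (G n).edgeSet.ncard := by
    intro n hn
    by_cases h0 : (G₀ n).edgeSet.ncard = 0
    · have : G n = ⊤ := by simp [hGdef, h0]
      rw [this, Set.ncard_pos]
      refine ⟨s(⟨0, by omega⟩, ⟨1, by omega⟩), ?_⟩
      rw [SimpleGraph.mem_edgeSet, SimpleGraph.top_adj]
      simp
    · have : G n = G₀ n := by simp [hGdef, h0]
      rw [this]
      omega
  have hch : ∀ n : ℕ, 2 ≤ n → (0 : ℝ) < n.choose 2 := fun n hn => by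
    exact_mod_cast Nat.choose_pos hn
  have hpp : ∀ n, 0 < p n ∧ p n ≤ 1 := by
    intro n
    by_cases h : n ≤ 1
    · simp [hpdef, h]
    · have hn : 2 ≤ n := by omega
      simp only [hpdef, h, if_false]
      refine ⟨div_pos (by exact_mod_cast hpos n hn) (hch n hn), ?_⟩
      rw [div_le_one (hch n hn)]
      exact_mod_cast hed n
  have hedge : ∀ n, ((G n).edgeSet.ncard : ℝ) = p n * (n.choose 2 : ℝ) := by
    intro n
    by_cases h : n ≤ 1
    · have hc : n.choose 2 = 0 := Nat.choose_eq_zero_of_lt (by omega)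
      have := hed n
      rw [hc] at this
      have h0 : (G n).edgeSet.ncard = 0 := by omega
      rw [h0, hc]
      simp
    · have hn : 2 ≤ n := by omega
      simp only [hpdef, h, if_false]
      rw [div_mul_cancel₀ _ (hch n hn).ne']
  -- eventually nothing has changed
  have hev : ∀ᶠ n : ℕ in atTop, G n = G₀ n ∧ p n = r n * p₀ n ∧ 2 ≤ n ∧ 1 / 2 ≤ r n := by
    have hr1 := k0.eventually (lt_mem_nhds (show (1 / 2 : ℝ) < 1 by norm_num))
    filter_upwards [hr1, eventually_ge_atTop 2] with n hn hn2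
    have hG0 : (G₀ n).edgeSet.ncard ≠ 0 := by
      intro h0
      have : r n = 0 := by
        simp only [hr, card_cp_edge, h0]
        simp
      rw [this] at hn
      norm_num at hn
    have hGn : G n = G₀ n := by simp [hGdef, hG0]
    refine ⟨hGn, ?_, hn2, hn.le⟩
    have hle : ¬ n ≤ 1 := by omega
    simp only [hpdef, hle, if_false, hr, card_cp_edge, hGn]
    have hd : (n.descFactorial 2 : ℝ) = 2 * (n.choose 2 : ℝ) := by
      rw [Nat.descFactorial_eq_factorial_mul_choose]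
      push_cast
      norm_num [Nat.factorial]
    rw [hd]
    have hp0 := (hp n).1
    have hc := hch n hn2
    push_cast
    field_simp
  -- transfer
  have tr : ∀ (k : ℕ) (F : SimpleGraph (Fin k)) (e : ℕ), ∀ᶠ n : ℕ in atTop,
      ((cp F (G n)).ncard : ℝ) / ((n.descFactorial k : ℝ) * p n ^ e) =
      ((cp F (G₀ n)).ncard : ℝ) / ((n.descFactorial k : ℝ) * p₀ n ^ e) * ((r n)⁻¹) ^ e := by
    intro k F e
    filter_upwards [hev] with n hn
    rw [hn.1, hn.2.1, mul_pow, inv_pow, ← div_eq_mul_inv, div_div]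
    congr 1
    ring
  have hri : ∀ e : ℕ, Tendsto (fun n => ((r n)⁻¹) ^ e) atTop (𝓝 1) := by
    intro e
    have := (k0.inv₀ one_ne_zero).pow e
    simpa using this
  refine ⟨p, G, hpp, ?_, hedge, ?_, ?_, ?_⟩
  · -- log (1/p) / log n → 0
    rw [Metric.tendsto_atTop]
    intro ε hε
    obtain ⟨K, hK⟩ := exists_nat_gt (2 / ε)
    have hK0 : (0 : ℝ) < K := lt_trans (by positivity) hK
    have e1 := (h2 K).eventually (gt_mem_nhds (show (0 : ℝ) < 1 by norm_num))
    have e2 : ∀ᶠ n : ℕ in atTop, Real.log 2 * (2 / ε) < Real.log n :=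
      (Real.tendsto_log_atTop.comp tendsto_natCast_atTop_atTop).eventually_gt_atTop _
    obtain ⟨N, hN⟩ := eventually_atTop.1 ((e1.and e2).and (hev.and (eventually_ge_atTop 2)))
    refine ⟨N, fun n hn => ?_⟩
    obtain ⟨⟨a1, a2⟩, ⟨b1, b2, b3, b4⟩, c1⟩ := hN n hn
    have hn0 : (0 : ℝ) < n := by
      have : (2 : ℝ) ≤ n := by exact_mod_cast c1
      linarith
    have hl : 0 < Real.log n := Real.log_pos (by
      have : (2 : ℝ) ≤ n := by exact_mod_cast c1
      linarith)
    rw [div_lt_one hn0] at a1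
    have hp0 := (hp n).1
    have hpn := hpp n
    have hlogp : K * Real.log ((p₀ n)⁻¹) < Real.log n := by
      rw [← Real.log_pow]
      exact Real.log_lt_log (by positivity) a1
    have hle : Real.log (1 / p n) ≤ Real.log 2 + Real.log ((p₀ n)⁻¹) := by
      rw [← Real.log_mul (by norm_num) (by positivity)]
      apply Real.log_le_log (by have := hpn.1; positivity)
      rw [b2, one_div, mul_inv]
      apply mul_le_mul_of_nonneg_right _ (by positivity)
      rw [inv_le_comm₀ (by linarith) (by norm_num)]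
      linarith
    have hge : 0 ≤ Real.log (1 / p n) := by
      apply Real.log_nonneg
      rw [le_div_iff₀ hpn.1]
      linarith [hpn.2]
    rw [Real.dist_eq, sub_zero, abs_of_nonneg (by positivity), div_lt_iff₀ hl]
    have h5 : Real.log ((p₀ n)⁻¹) < Real.log n * (ε / 2) := by
      have : Real.log ((p₀ n)⁻¹) < Real.log n / K := by
        rw [lt_div_iff₀ hK0]
        linarith
      refine this.trans ?_
      rw [div_eq_mul_inv]
      apply mul_lt_mul_of_pos_left _ hl
      rw [inv_lt_comm₀ hK0 (by positivity)]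
      refine lt_of_eq_of_lt ?_ hK
      field_simp
    have h6 : Real.log 2 < Real.log n * (ε / 2) := by
      have h7 : Real.log 2 * (2 / ε) * (ε / 2) < Real.log n * (ε / 2) :=
        mul_lt_mul_of_pos_right a2 (by positivity)
      have h8 : Real.log 2 * (2 / ε) * (ε / 2) = Real.log 2 := by field_simp
      linarith
    linarith
  · have h := k1.mul (hri 4)
    rw [one_mul] at h
    refine h.congr' ?_
    filter_upwards [tr 4 (SimpleGraph.cycleGraph 4) 4] with n hn
    exact hn.symm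
  · intro k F
    obtain ⟨C, hC⟩ := hl3 (Ee F) (hG _ _ (mem_Ee F)).1
    have ha := all k F
    have hb : Tendsto (fun n : ℕ => (((cp F (G₀ n)).ncard : ℝ) /
        ((n.descFactorial k : ℝ) * p₀ n ^ (Ee F).card) -
        Zf (Ee F) (-(1 / (m n : ℝ))) ^ (m n ^ 3)) * ((r n)⁻¹) ^ (Ee F).card) atTop (𝓝 0) := by
      simpa using ha.mul (hri (Ee F).card)
    have hrb : ∀ᶠ n : ℕ in atTop, |((r n)⁻¹) ^ (Ee F).card| ≤ 2 := by
      have := (hri (Ee F).card).abs
      rw [abs_one] at this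
      exact (this.eventually (gt_mem_nhds (show (1 : ℝ) < 2 by norm_num))).mono
        fun n hn => hn.le
    have hfin : ∀ᶠ n : ℕ in atTop, ((cp F (G n)).ncard : ℝ) /
        ((n.descFactorial k : ℝ) * p n ^ F.edgeSet.ncard) ≤ 1 + |C| * 2 := by
      filter_upwards [hb.eventually (gt_mem_nhds (show (0 : ℝ) < 1 by norm_num)), hrb,
        tr k F (Ee F).card] with n h3 h4 h5
      rw [← hEe, h5]
      have h6 : Zf (Ee F) (-(1 / (m n : ℝ))) ^ (m n ^ 3) * ((r n)⁻¹) ^ (Ee F).card ≤ |C| * 2 := by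
        refine (le_abs_self _).trans ?_
        rw [abs_mul]
        exact mul_le_mul ((hC n).trans (le_abs_self C)) h4 (abs_nonneg _) (abs_nonneg _)
      have h7 : ((cp F (G₀ n)).ncard : ℝ) / ((n.descFactorial k : ℝ) * p₀ n ^ (Ee F).card) *
          ((r n)⁻¹) ^ (Ee F).card =
          (((cp F (G₀ n)).ncard : ℝ) / ((n.descFactorial k : ℝ) * p₀ n ^ (Ee F).card) -
          Zf (Ee F) (-(1 / (m n : ℝ))) ^ (m n ^ 3)) * ((r n)⁻¹) ^ (Ee F).card +
          Zf (Ee F) (-(1 / (m n : ℝ))) ^ (m n ^ 3) * ((r n)⁻¹) ^ (Ee F).card := by ring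
      rw [h7]
      linarith
    obtain ⟨N, hN⟩ := eventually_atTop.1 hfin
    refine ⟨1 + |C| * 2 + ∑ i ∈ Finset.range N, |((cp F (G i)).ncard : ℝ) /
        ((i.descFactorial k : ℝ) * p i ^ F.edgeSet.ncard)|, fun n => ?_⟩
    by_cases hn : N ≤ n
    · have h8 : 0 ≤ ∑ i ∈ Finset.range N, |((cp F (G i)).ncard : ℝ) /
        ((i.descFactorial k : ℝ) * p i ^ F.edgeSet.ncard)| :=
        Finset.sum_nonneg fun i _ => abs_nonneg _
      linarith [hN n hn]
    · have h9 := Finset.single_le_sum (f := fun i => |((cp F (G i)).ncard : ℝ) /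
        ((i.descFactorial k : ℝ) * p i ^ F.edgeSet.ncard)|) (fun i _ => abs_nonneg _)
        (Finset.mem_range.2 (not_le.1 hn))
      have h10 := le_abs_self (((cp F (G n)).ncard : ℝ) /
        ((n.descFactorial k : ℝ) * p n ^ F.edgeSet.ncard))
      have h11 : 0 ≤ |C| := abs_nonneg C
      linarith
  · have h := k2.mul (hri 3)
    rw [mul_one] at h
    refine h.congr' ?_
    filter_upwards [tr 3 (SimpleGraph.cycleGraph 3) 3] with n hn
    exact hn.symm

end Pool.Agent.N437.QR
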