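import Pool.Agent.N437.QR.Stm

set_option autoImplicit false

namespace Pool.Agent.N437.QR

theorem t_GR : S_GR := by
  intro V _ _ F E hE
  refine ⟨fun e he => F.not_isDiag_of_mem_edgeSet ((hE e).1 he), ?_⟩
  intro n S
  unfold emb
  congr 1
  ext f
  simp only [Set.mem_setOf_eq]
  constructor
  · rintro ⟨hf, h⟩
    refine ⟨hf, fun e he => ?_⟩
    induction e using Sym2.ind with
    | _ i j =>
      have := h i j ((SimpleGraph.mem_edgeSet F).1 ((hE _).1 he))
      rw [SimpleGraph.fromEdgeSet_adj] at this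
      simpa using this.1
  · rintro ⟨hf, h⟩
    refine ⟨hf, fun i j hij => ?_⟩
    rw [SimpleGraph.fromEdgeSet_adj]
    refine ⟨?_, fun h' => hij.ne (hf h')⟩
    have := h s(i, j) ((hE _).2 ((SimpleGraph.mem_edgeSet F).2 hij))
    simpa using this

end Pool.Agent.N437.QR
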